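import Pool.Agent.TS.F.Pad

/-!
# TS/F-Adj: the field of a polynomial with only real roots

The embeddings of `F = ℚ(θ)` correspond to the roots of the minimal polynomial of `θ`.
-/

namespace Pool.Agent.TS

open Polynomial NumberField Pool.Agent.H73.DU Pool.Agent.H73.AL

private theorem adj_pb (F : Type) [Field F] [NumberField F] (θ : F) (P : ℤ[X]) (hP : P.Monic)
    (hd : P.natDegree = Module.finrank ℚ F) (hi : Irreducible (P.map (Int.castRingHom ℚ)))
    (hθ : aeval θ P = 0) : ∃ pb : PowerBasis ℚ F, pb.gen = θ ∧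
      minpoly ℚ pb.gen = P.map (Int.castRingHom ℚ) := by
  have hint : IsIntegral ℚ θ := IsIntegral.of_finite ℚ θ
  have h0 : aeval θ (P.map (Int.castRingHom ℚ)) = 0 := by
    rw [aeval_def, eval₂_map]
    rw [aeval_def] at hθ
    have e : (algebraMap ℚ F).comp (Int.castRingHom ℚ) = algebraMap ℤ F := Subsingleton.elim _ _
    rw [e]
    exact hθ
  have hm : P.map (Int.castRingHom ℚ) = minpoly ℚ θ :=
    minpoly.eq_of_irreducible_of_monic hi h0 (hP.map _)
  have h1 : IntermediateField.adjoin ℚ {θ} = ⊤ := by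
    rw [Field.primitive_element_iff_minpoly_natDegree_eq ℚ θ, ← hm, hP.natDegree_map, hd]
  have h2 : Algebra.adjoin ℚ {θ} = ⊤ := by
    rw [← IntermediateField.adjoin_simple_toSubalgebra_of_isAlgebraic hint.isAlgebraic, h1]
    exact IntermediateField.top_toSubalgebra
  refine ⟨PowerBasis.ofAdjoinEqTop' hint h2, PowerBasis.ofAdjoinEqTop'_gen hint h2, ?_⟩
  rw [PowerBasis.ofAdjoinEqTop'_gen hint h2, hm]

private theorem adj_ext (F : Type) [Field F] [NumberField F] (θ : F) (P : ℤ[X]) (hP : P.Monic)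
    (hd : P.natDegree = Module.finrank ℚ F) (hi : Irreducible (P.map (Int.castRingHom ℚ)))
    (hθ : aeval θ P = 0) {A : Type} [Field A] [CharZero A] {φ ψ : F →+* A} (h : φ θ = ψ θ) :
    φ = ψ := by
  obtain ⟨pb, h1, -⟩ := adj_pb F θ P hP hd hi hθ
  have h2 : φ.toRatAlgHom = ψ.toRatAlgHom := by
    refine pb.algHom_ext ?_
    rw [h1]
    exact h
  ext x
  exact AlgHom.congr_fun h2 x

private theorem adj_root {A B : Type} [Field A] [Field B] (φ : A →+* B) (P : ℤ[X]) (x : A)
    (h : aeval x P = 0) : aeval (φ x) P = 0 := by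
  rw [aeval_def] at h ⊢
  have e : algebraMap ℤ B = φ.comp (algebraMap ℤ A) := Subsingleton.elim _ _
  rw [e, ← hom_eval₂, h, map_zero]

theorem mark_nrt (F : Type) [Field F] [NumberField F] (θ : F) (P : ℤ[X]) (hP : P.Monic)
    (hd : P.natDegree = Module.finrank ℚ F) (hi : Irreducible (P.map (Int.castRingHom ℚ)))
    (hθ : aeval θ P = 0) (U : Subgroup GQ) : mark F U = nrt P U := by
  unfold mark pch nrt
  congr 1
  refine Nat.card_congr (Equiv.ofBijective (fun φ => ⟨φ.1 θ, adj_root φ.1 P θ hθ, ?_⟩) ⟨?_, ?_⟩)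
  · intro u hu
    have h1 := φ.2
    rw [mem_fx] at h1
    have h2 := RingHom.congr_fun (h1 u hu) θ
    rw [smul_emb] at h2
    exact h2
  · intro φ ψ h
    exact Subtype.ext (adj_ext F θ P hP hd hi hθ (congrArg Subtype.val h))
  · rintro ⟨x, hx, hU⟩
    obtain ⟨pb, h1, h2⟩ := adj_pb F θ P hP hd hi hθ
    have h3 : aeval x (minpoly ℚ pb.gen) = 0 := by
      rw [h2, aeval_def, eval₂_map]
      rw [aeval_def] at hx
      have e : (algebraMap ℚ (AlgebraicClosure ℚ)).comp (Int.castRingHom ℚ) =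
        algebraMap ℤ (AlgebraicClosure ℚ) := Subsingleton.elim _ _
      rw [e]
      exact hx
    have h4 : (pb.lift x h3 : F →ₐ[ℚ] AlgebraicClosure ℚ).toRingHom θ = x := by
      have := pb.lift_gen x h3
      rw [h1] at this
      exact this
    refine ⟨⟨(pb.lift x h3 : F →ₐ[ℚ] AlgebraicClosure ℚ).toRingHom, ?_⟩, Subtype.ext h4⟩
    rw [mem_fx]
    intro u hu
    refine adj_ext F θ P hP hd hi hθ ?_
    rw [smul_emb, h4]
    exact hU u hu

theorem exists_adj (P : ℤ[X]) (hP : P.Monic) (hi : Irreducible (P.map (Int.castRingHom ℚ)))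
    (hr : ∀ z : ℂ, (P.map (Int.castRingHom ℂ)).eval z = 0 → z.im = 0) :
    ∃ F : NF, InfinitePlace.nrComplexPlaces F.F = 0 ∧ Module.finrank ℚ F.F = P.natDegree ∧
      ∀ U : Subgroup GQ, mark F.F U = nrt P U := by
  have hf : Fact (Irreducible (P.map (Int.castRingHom ℚ))) := ⟨hi⟩
  have hd : P.natDegree = Module.finrank ℚ (AdjoinRoot (P.map (Int.castRingHom ℚ))) := by
    have h1 := (AdjoinRoot.powerBasis hi.ne_zero).finrank
    rw [AdjoinRoot.powerBasis_dim, hP.natDegree_map] at h1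
    rw [← h1]
  have hθ : aeval (AdjoinRoot.root (P.map (Int.castRingHom ℚ))) P = 0 := by
    have h1 := AdjoinRoot.eval₂_root (P.map (Int.castRingHom ℚ))
    rw [eval₂_map] at h1
    rw [aeval_def]
    have e : (AdjoinRoot.of (P.map (Int.castRingHom ℚ))).comp (Int.castRingHom ℚ) =
      algebraMap ℤ (AdjoinRoot (P.map (Int.castRingHom ℚ))) := Subsingleton.elim _ _
    rw [← e]
    exact h1
  refine ⟨⟨AdjoinRoot (P.map (Int.castRingHom ℚ))⟩, ?_, hd.symm, fun U =>
    mark_nrt _ _ P hP hd hi hθ U⟩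
  have hreal : ∀ φ : AdjoinRoot (P.map (Int.castRingHom ℚ)) →+* ℂ, ComplexEmbedding.IsReal φ := by
    intro φ
    rw [ComplexEmbedding.isReal_iff]
    refine adj_ext _ _ P hP hd hi hθ ?_
    rw [ComplexEmbedding.conjugate_coe_eq]
    rw [Complex.conj_eq_iff_im]
    refine hr _ ?_
    have h1 := adj_root φ P _ hθ
    rw [aeval_def] at h1
    rw [eval_map]
    have e : Int.castRingHom ℂ = algebraMap ℤ ℂ := Subsingleton.elim _ _
    rw [e]
    exact h1
  have h0 : IsEmpty {w : InfinitePlace (AdjoinRoot (P.map (Int.castRingHom ℚ))) //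
      InfinitePlace.IsComplex w} := by
    refine ⟨fun w => ?_⟩
    have h1 : InfinitePlace.IsReal w.1 := by
      rw [InfinitePlace.isReal_iff]
      exact hreal _
    exact InfinitePlace.not_isReal_iff_isComplex.2 w.2 h1
  classical
  exact Fintype.card_eq_zero

end Pool.Agent.TS
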