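import Pool.Agent.TS.F.Poly
import Pool.Agent.TS.F.Adj

/-!
# TS/F-Fld: the totally real field (paper section 5)

PLAN.  `exists_prim`: a primitive element of `K` (`Field.exists_primitive_element`), multiplied by a positive integer so that it is integral; `f = minpoly ℤ θ`: `minpoly.isIntegrallyClosed_eq_field_fractions` (`f.map = minpoly ℚ θ`), degree `[K : ℚ]`, `mark_nrt`.
`exists_TR`: `f` as above (separable over `ℚ`: irreducible, characteristic zero); `k p` from `pad` for the primes `p ∈ W` (choose `k p = 0` for non-primes), `N0 = ∏ p ∈ W.filter Nat.Prime, p ^ (k p)`; `P` from `exists_poly`; `F` from `exists_adj`; degrees agree; for `p ∈ W`: `p ^ (k p) ∣ N0 ∣ coefficients`, so `nrt f U = nrt P U`.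
-/

namespace Pool.Agent.TS

open Polynomial NumberField IsDedekindDomain Pool.Agent.HWR Pool.Agent.H73.DU Pool.Agent.H73.AL

private theorem fld_prim (K : Type) [Field K] [NumberField K] : ∃ θ : K, IsIntegral ℤ θ ∧
    (minpoly ℚ θ).natDegree = Module.finrank ℚ K := by
  obtain ⟨α, hα⟩ := Field.exists_primitive_element ℚ K
  have h1 : IsAlgebraic ℤ α :=
    (IsFractionRing.isAlgebraic_iff ℤ ℚ K).2 (IsAlgebraic.of_finite ℚ α)
  obtain ⟨y, hy, hi⟩ := h1.exists_integral_multiple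
  refine ⟨y • α, hi, ?_⟩
  rw [← Field.primitive_element_iff_minpoly_natDegree_eq]
  refine le_antisymm le_top ?_
  rw [← hα, IntermediateField.adjoin_simple_le_iff]
  have h2 : y • α ∈ IntermediateField.adjoin ℚ {y • α} :=
    IntermediateField.mem_adjoin_simple_self ℚ (y • α)
  have h3 : ((y : ℚ)⁻¹) • (y • α) = α := by
    rw [← Int.cast_smul_eq_zsmul ℚ y α, smul_smul, inv_mul_cancel₀ (by exact_mod_cast hy), one_smul]
  have h4 := IntermediateField.smul_mem (IntermediateField.adjoin ℚ {y • α}) h2 (x := (y : ℚ)⁻¹)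
  rwa [h3] at h4

theorem exists_prim (K : NF) : ∃ f : ℤ[X], f.Monic ∧ f.natDegree = Module.finrank ℚ K.F ∧
    Irreducible (f.map (Int.castRingHom ℚ)) ∧ ∀ U : Subgroup GQ, mark K.F U = nrt f U := by
  obtain ⟨θ, hi, hd⟩ := fld_prim K.F
  have h1 : minpoly ℚ θ = (minpoly ℤ θ).map (Int.castRingHom ℚ) :=
    minpoly.isIntegrallyClosed_eq_field_fractions' ℚ hi
  have hm := minpoly.monic hi
  have h2 : (minpoly ℤ θ).natDegree = Module.finrank ℚ K.F := by
    rw [← hd, h1, hm.natDegree_map]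
  have h3 : Irreducible ((minpoly ℤ θ).map (Int.castRingHom ℚ)) := by
    rw [← h1]
    exact minpoly.irreducible (hi.tower_top)
  exact ⟨minpoly ℤ θ, hm, h2, h3, fun U => mark_nrt K.F θ _ hm h2 h3 (minpoly.aeval ℤ θ) U⟩

theorem exists_TR (W : Finset ℕ) (K : NF) : ∃ F : NF,
    InfinitePlace.nrComplexPlaces F.F = 0 ∧
      Module.finrank ℚ F.F = Module.finrank ℚ K.F ∧
      ∀ (p : ℕ) [Fact p.Prime], p ∈ W → ∀ U : Subgroup GQ,
        (∃ a : GQ, cj a U ≤ decomp ℚ_[p] (emb p)) → mark K.F U = mark F.F U := by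
  obtain ⟨f, hf, hd, hi, hm⟩ := exists_prim K
  have hk : ∀ p : ℕ, ∃ k : ℕ, ∀ [Fact p.Prime], ∀ P : ℤ[X], P.Monic → P.natDegree = f.natDegree →
      (∀ i, ((p : ℤ) ^ k) ∣ P.coeff i - f.coeff i) →
      ∀ U : Subgroup GQ, (∃ a : GQ, cj a U ≤ decomp ℚ_[p] (emb p)) → nrt f U = nrt P U := by
    intro p
    by_cases hp : p.Prime
    · have : Fact p.Prime := ⟨hp⟩
      obtain ⟨k, hk⟩ := pad p f hf hi.separable
      exact ⟨k, hk⟩
    · exact ⟨0, fun {h} => absurd h.out hp⟩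
  choose k hk using hk
  have hN0 : (∏ p ∈ W.filter Nat.Prime, p ^ k p) ≠ 0 :=
    Finset.prod_ne_zero_iff.2 fun p hp => pow_ne_zero _ (Finset.mem_filter.1 hp).2.ne_zero
  obtain ⟨P, hP, hPd, hPi, hPr, hPc⟩ := exists_poly f hf (hd ▸ Module.finrank_pos)
    (∏ p ∈ W.filter Nat.Prime, p ^ k p) hN0
  obtain ⟨F, hF0, hFd, hFm⟩ := exists_adj P hP hPi hPr
  refine ⟨F, hF0, by rw [hFd, hPd, hd], ?_⟩
  intro p hp hpW U hU
  rw [hm U, hFm U, hk p P hP hPd (fun i => ?_) U hU]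
  refine dvd_trans ?_ (hPc i)
  have h1 : p ^ k p ∣ ∏ p ∈ W.filter Nat.Prime, p ^ k p :=
    Finset.dvd_prod_of_mem _ (Finset.mem_filter.2 ⟨hpW, hp.out⟩)
  exact_mod_cast h1

end Pool.Agent.TS
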