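import Mathlib

/-!
# TS/F-Crt: congruences for polynomials, Eisenstein

`exists_r`: the coefficients are given by Bezout for `N0` and `q ^ 2`. `irr_eis`: the Eisenstein criterion at the prime
ideal generated by `q`, and the Gauss lemma.
-/

namespace Pool.Agent.TS

open Polynomial

theorem exists_r (f : ℤ[X]) (n N0 q : ℕ) (hq : q.Prime) (hN0 : ¬ q ∣ N0) (hN : N0 ≠ 0) :
    ∃ r : ℤ[X], r.degree < n ∧ (∀ i < n, (N0 : ℤ) ∣ r.coeff i - f.coeff i) ∧
      ∀ i < n, ((q : ℤ) ^ 2) ∣ r.coeff i - (if i = 0 then (q : ℤ) else 0) := by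
  have hc : IsCoprime (N0 : ℤ) ((q : ℤ) ^ 2) := by
    have h1 : Nat.Coprime q N0 := (Nat.Prime.coprime_iff_not_dvd hq).2 hN0
    exact ((Nat.isCoprime_iff_coprime.2 h1).symm).pow_right
  obtain ⟨a, b, hab⟩ := hc
  let c : ℕ → ℤ := fun i => f.coeff i * (b * (q : ℤ) ^ 2) + (if i = 0 then (q : ℤ) else 0) * (a * N0)
  have hr : ∀ i < n, (∑ j ∈ Finset.range n, C (c j) * X ^ j : ℤ[X]).coeff i = c i := by
    intro i hi
    rw [finsetSum_coeff]
    rw [Finset.sum_eq_single i]
    · rw [coeff_C_mul, coeff_X_pow, if_pos rfl, mul_one]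
    · intro j _ hj
      rw [coeff_C_mul, coeff_X_pow, if_neg (fun h => hj h.symm), mul_zero]
    · intro h
      exact absurd (Finset.mem_range.2 hi) h
  refine ⟨∑ j ∈ Finset.range n, C (c j) * X ^ j, ?_, ?_, ?_⟩
  · rw [degree_lt_iff_coeff_zero]
    intro m hm
    rw [finsetSum_coeff]
    refine Finset.sum_eq_zero fun j hj => ?_
    have hj' := Finset.mem_range.1 hj
    rw [coeff_C_mul, coeff_X_pow, if_neg (by omega), mul_zero]
  · intro i hi
    rw [hr i hi]
    refine ⟨a * ((if i = 0 then (q : ℤ) else 0) - f.coeff i), ?_⟩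
    show f.coeff i * (b * (q : ℤ) ^ 2) + (if i = 0 then (q : ℤ) else 0) * (a * N0) - f.coeff i = _
    linear_combination (f.coeff i) * hab
  · intro i hi
    rw [hr i hi]
    refine ⟨b * (f.coeff i - (if i = 0 then (q : ℤ) else 0)), ?_⟩
    show f.coeff i * (b * (q : ℤ) ^ 2) + (if i = 0 then (q : ℤ) else 0) * (a * N0) -
      (if i = 0 then (q : ℤ) else 0) = _
    linear_combination (if i = 0 then (q : ℤ) else 0) * hab

theorem irr_eis (P : ℤ[X]) (hP : P.Monic) (hd : 0 < P.natDegree) (q : ℕ) (hq : q.Prime)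
    (h : ∀ i < P.natDegree, ((q : ℤ) ^ 2) ∣ P.coeff i - (if i = 0 then (q : ℤ) else 0)) :
    Irreducible (P.map (Int.castRingHom ℚ)) := by
  have hqZ : Prime (q : ℤ) := Nat.prime_iff_prime_int.1 hq
  have hI : (Ideal.span {(q : ℤ)}).IsPrime := by
    rw [Ideal.span_singleton_prime hqZ.ne_zero]
    exact hqZ
  have hE : P.IsEisensteinAt (Ideal.span {(q : ℤ)}) := by
    refine ⟨?_, ?_, ?_⟩
    · rw [hP.leadingCoeff, Ideal.mem_span_singleton]
      exact fun h1 => hqZ.not_isUnit (isUnit_of_dvd_one h1)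
    · intro n hn
      rw [Ideal.mem_span_singleton]
      have h1 : (q : ℤ) ∣ P.coeff n - (if n = 0 then (q : ℤ) else 0) :=
        (dvd_pow_self (q : ℤ) two_ne_zero).trans (h n hn)
      have h2 : (q : ℤ) ∣ (if n = 0 then (q : ℤ) else 0) := by
        split_ifs
        · exact dvd_rfl
        · exact dvd_zero _
      have h3 := dvd_add h1 h2
      rwa [sub_add_cancel] at h3
    · rw [Ideal.span_singleton_pow, Ideal.mem_span_singleton]
      intro h1
      have h2 := h 0 hd
      rw [if_pos rfl] at h2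
      have h3 := dvd_sub h1 h2
      rw [sub_sub_cancel] at h3
      have h4 : (q : ℤ) ^ 2 ∣ (q : ℤ) ^ 1 := by rwa [pow_one]
      have h5 := (pow_dvd_pow_iff hqZ.ne_zero hqZ.not_isUnit).1 h4
      omega
  have hirr : Irreducible P := hE.irreducible hI hP.isPrimitive hd
  exact (hP.irreducible_iff_irreducible_map_fraction_map (K := ℚ)).1 hirr

end Pool.Agent.TS
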