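import Pool.Agent.TS.Defs
import Pool.Agent.MD.L.Fix

/-!
# TS/F-Pad: roots of `p`-adically close polynomials (paper section 5)

Work in `Ω = AlgebraicClosure ℚ_[p]` with its norm (`‖σ a‖ = ‖a‖` for `σ : Ω ≃ₐ[ℚ_[p]] Ω`, nonarchimedean, algebraic integers have norm `≤ 1`).
`f` separable of degree `n`: `n` distinct roots in `AlgebraicClosure ℚ`. `ε > 0` at most all `‖emb x - emb x'‖`, `x ≠ x'` roots of `f`, and `k` with `(p⁻¹) ^ k < ε ^ n`.
For every root `x` of `f` there is a root `y` of `P` with `‖emb x - emb y‖ < ε` (product over the roots of `P`, with multiplicity `n`), and `y` determines `x`; so this is a bijection `ϕ` between the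
roots, and it commutes with the elements of `decomp` (uniqueness and isometry). So for `U ≤ decomp` the fixed roots correspond. If only `cj a U ≤ decomp`: `x ↦ a⁻¹ x` maps the roots fixed by `U`
bijectively to those fixed by `cj a U = a⁻¹ U a`.
-/

namespace Pool.Agent.TS

open Polynomial Pool.Agent.HWR Pool.Agent.H73.DU

/-- the number of the roots of `f` in `AlgebraicClosure ℚ` fixed by `U` -/
noncomputable def nrt (f : ℤ[X]) (U : Subgroup GQ) : ℕ :=
  Nat.card {x : AlgebraicClosure ℚ // aeval x f = 0 ∧ ∀ u ∈ U, u x = x}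

private theorem pad_norm_le {p : ℕ} [Fact p.Prime] {y : AlgebraicClosure ℚ_[p]}
    (hy : IsIntegral ℤ y) : ‖y‖ ≤ 1 := by
  have h1 : IsIntegral (PadicAlgCl.valued p).v.integer y := hy.tower_top
  have h2 := (Valuation.integer.integers (PadicAlgCl.valued p).v).mem_of_integral h1
  have h3 : Valued.v y ≤ (1 : NNReal) := h2
  rw [← PadicAlgCl.valuation_coe p y]
  exact_mod_cast h3

private theorem pad_norm_p (p : ℕ) [Fact p.Prime] :
    ‖((p : ℕ) : AlgebraicClosure ℚ_[p])‖ = (p : ℝ)⁻¹ := by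
  rw [← map_natCast (algebraMap ℚ_[p] (AlgebraicClosure ℚ_[p])), PadicAlgCl.norm_extends,
    Padic.norm_p]

private theorem pad_p_lt (p : ℕ) [Fact p.Prime] : (p : ℝ)⁻¹ < 1 := by
  have h : (1 : ℝ) < p := by exact_mod_cast (Fact.out : p.Prime).one_lt
  exact inv_lt_one_of_one_lt₀ h

private theorem pad_nn {p : ℕ} [Fact p.Prime] (a b : AlgebraicClosure ℚ_[p]) :
    ‖a + b‖ ≤ max ‖a‖ ‖b‖ := PadicAlgCl.isNonarchimedean p a b

private theorem pad_tri {p : ℕ} [Fact p.Prime] {a b c : AlgebraicClosure ℚ_[p]} {ε : ℝ}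
    (h1 : ‖a - c‖ < ε) (h2 : ‖b - c‖ < ε) : ‖a - b‖ < ε := by
  have h3 : a - b = (a - c) + -(b - c) := by ring
  rw [h3]
  refine (pad_nn _ _).trans_lt (max_lt h1 ?_)
  rwa [norm_neg]

private theorem pad_aut {p : ℕ} [Fact p.Prime] (σ : AlgebraicClosure ℚ_[p] ≃ₐ[ℚ_[p]]
    AlgebraicClosure ℚ_[p]) (a : AlgebraicClosure ℚ_[p]) : ‖σ a‖ = ‖a‖ := by
  have h := (spectralNorm_eq_of_equiv σ a).symm
  exact h

private theorem pad_aeval (g : GQ) (P : ℤ[X]) (x : AlgebraicClosure ℚ) :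
    aeval (g x) P = g (aeval x P) := by
  have h := Polynomial.hom_eval₂ P (algebraMap ℤ (AlgebraicClosure ℚ))
    (g : AlgebraicClosure ℚ →+* AlgebraicClosure ℚ) x
  rw [aeval_def, aeval_def]
  refine Eq.trans ?_ h.symm
  congr 1
  exact RingHom.ext_int _ _

private theorem pad_zero (g : GQ) (P : ℤ[X]) {x : AlgebraicClosure ℚ} (h : aeval x P = 0) :
    aeval (g x) P = 0 := by
  rw [pad_aeval, h, map_zero]

private theorem pad_cj (f : ℤ[X]) (U : Subgroup GQ) (a : GQ) : nrt f U = nrt f (cj a U) := by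
  have ha : ∀ x, a (a⁻¹ x) = x := fun x => AlgEquiv.apply_symm_apply a x
  have ha' : ∀ x, a⁻¹ (a x) = x := fun x => AlgEquiv.symm_apply_apply a x
  refine Nat.card_congr ⟨fun x => ⟨a⁻¹ x.1, pad_zero _ f x.2.1, ?_⟩,
    fun x => ⟨a x.1, pad_zero _ f x.2.1, ?_⟩, ?_, ?_⟩
  · intro u hu
    obtain ⟨v, hv, rfl⟩ := mem_cj_iff.1 hu
    change a⁻¹ (v (a (a⁻¹ x.1))) = a⁻¹ x.1
    rw [ha, x.2.2 v hv]
  · intro u hu
    have h1 := x.2.2 _ (mem_cj (a := a) hu)
    change a⁻¹ (u (a x.1)) = x.1 at h1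
    have h2 := congrArg a h1
    rwa [ha] at h2
  · intro x
    exact Subtype.ext (ha _)
  · intro x
    exact Subtype.ext (ha' _)

/-- a product over a multiset is large if all factors are large -/
private theorem pad_prod {p : ℕ} [Fact p.Prime] {ε : ℝ} (hε : 0 < ε)
    (m : Multiset (AlgebraicClosure ℚ)) (x : AlgebraicClosure ℚ)
    (h : ∀ y ∈ m, ε ≤ ‖emb p x - emb p y‖) :
    ε ^ Multiset.card m ≤ ‖emb p ((m.map fun y => x - y).prod)‖ := by
  induction m using Multiset.induction_on with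
  | empty => simp
  | cons a m ih =>
    rw [Multiset.card_cons, Multiset.map_cons, Multiset.prod_cons, map_mul, norm_mul, pow_succ',
      map_sub]
    exact mul_le_mul (h a (Multiset.mem_cons_self a m))
      (ih fun y hy => h y (Multiset.mem_cons_of_mem hy)) (pow_nonneg hε.le _) (norm_nonneg _)

private theorem pad_sep {p : ℕ} [Fact p.Prime] (S : Finset (AlgebraicClosure ℚ)) :
    ∃ ε : ℝ, 0 < ε ∧ ∀ x ∈ S, ∀ y ∈ S, x ≠ y → ε ≤ ‖emb p x - emb p y‖ := by
  classical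
  obtain ⟨T, hT⟩ : ∃ T, T = (S ×ˢ S).filter fun z => z.1 ≠ z.2 := ⟨_, rfl⟩
  have hmem : ∀ x ∈ S, ∀ y ∈ S, x ≠ y → (x, y) ∈ T := by
    intro x hx y hy hxy
    rw [hT, Finset.mem_filter, Finset.mem_product]
    exact ⟨⟨hx, hy⟩, hxy⟩
  rcases T.eq_empty_or_nonempty with h | h
  · refine ⟨1, one_pos, fun x hx y hy hxy => ?_⟩
    have h1 := hmem x hx y hy hxy
    rw [h] at h1
    exact absurd h1 (Finset.notMem_empty _)
  · obtain ⟨z, hz, hz'⟩ := T.exists_min_image (fun z => ‖emb p z.1 - emb p z.2‖) h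
    obtain ⟨x₀, y₀⟩ := z
    have hne : x₀ ≠ y₀ := by
      rw [hT, Finset.mem_filter] at hz
      exact hz.2
    refine ⟨‖emb p x₀ - emb p y₀‖, ?_, ?_⟩
    · rw [norm_pos_iff, sub_ne_zero]
      exact fun h1 => hne ((emb p).injective h1)
    · intro x hx y hy hxy
      have h1 := hz' (x, y) (hmem x hx y hy hxy)
      dsimp only at h1
      exact h1

theorem pad (p : ℕ) [Fact p.Prime] (f : ℤ[X]) (hf : f.Monic)
    (hs : (f.map (Int.castRingHom ℚ)).Separable) :
    ∃ k : ℕ, ∀ P : ℤ[X], P.Monic → P.natDegree = f.natDegree →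
      (∀ i, ((p : ℤ) ^ k) ∣ P.coeff i - f.coeff i) →
      ∀ U : Subgroup GQ, (∃ a : GQ, cj a U ≤ decomp ℚ_[p] (emb p)) → nrt f U = nrt P U := by
  classical
  -- the roots
  obtain ⟨Z, hZ⟩ : ∃ Z : ℤ[X] → Finset (AlgebraicClosure ℚ), ∀ P, Z P =
      (P.map (algebraMap ℤ (AlgebraicClosure ℚ))).roots.toFinset := ⟨_, fun _ => rfl⟩
  have hmemZ : ∀ P : ℤ[X], P.Monic → ∀ x, x ∈ Z P ↔ aeval x P = 0 := by
    intro P hP x
    rw [hZ, Multiset.mem_toFinset, mem_roots (hP.map _).ne_zero, IsRoot.def, eval_map,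
      aeval_def]
  have hcardZ : ∀ P : ℤ[X], P.Monic → (Z P).card ≤ P.natDegree := by
    intro P hP
    rw [hZ]
    refine (Multiset.toFinset_card_le _).trans ((card_roots' _).trans ?_)
    exact natDegree_map_le
  have hcardf : (Z f).card = f.natDegree := by
    have h1 : (f.map (algebraMap ℤ (AlgebraicClosure ℚ))).Separable := by
      have h2 := hs.map (f := algebraMap ℚ (AlgebraicClosure ℚ))
      rw [Polynomial.map_map] at h2
      rwa [show (algebraMap ℚ (AlgebraicClosure ℚ)).comp (Int.castRingHom ℚ) =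
        algebraMap ℤ (AlgebraicClosure ℚ) from RingHom.ext_int _ _] at h2
    rw [hZ, Multiset.toFinset_card_of_nodup (nodup_roots h1),
      ← (IsAlgClosed.splits _).natDegree_eq_card_roots, hf.natDegree_map]
  obtain ⟨ε, hε, hsep⟩ := pad_sep (p := p) (Z f)
  obtain ⟨k, hk⟩ := exists_pow_lt_of_lt_one (pow_pos hε f.natDegree) (pad_p_lt p)
  refine ⟨k, fun P hP hdeg hco => ?_⟩
  -- existence of close roots
  have hex : ∀ x, x ∈ Z f → ∃ y, y ∈ Z P ∧ ‖emb p x - emb p y‖ < ε := by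
    intro x hx
    by_contra hcon
    push Not at hcon
    have hx0 : aeval x f = 0 := (hmemZ f hf x).1 hx
    obtain ⟨Q, hQ⟩ : C ((p : ℤ) ^ k) ∣ P - f := by
      rw [C_dvd_iff_dvd_coeff]
      intro i
      rw [coeff_sub]
      exact hco i
    have h1 : aeval x P = ((p : ℕ) : AlgebraicClosure ℚ) ^ k * aeval x Q := by
      have h2 : P = f + C ((p : ℤ) ^ k) * Q := by rw [← hQ]; ring
      rw [h2, map_add, hx0, zero_add, map_mul, aeval_C]
      congr 1
      simp
    have hxint : IsIntegral ℤ x := ⟨f, hf, by rwa [← aeval_def]⟩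
    have h3 : ‖emb p (aeval x Q)‖ ≤ 1 := by
      apply pad_norm_le
      have h4 : IsIntegral ℤ (aeval x Q) := by
        have h5 : aeval x Q ∈ Algebra.adjoin ℤ {x} := aeval_mem_adjoin_singleton ℤ x
        exact IsIntegral.of_mem_of_fg _ hxint.fg_adjoin_singleton _ h5
      exact map_isIntegral_int (emb p) h4
    have h4 : ‖emb p (aeval x P)‖ ≤ ((p : ℝ)⁻¹) ^ k := by
      rw [h1, map_mul, map_pow, map_natCast, norm_mul, norm_pow, pad_norm_p]
      exact mul_le_of_le_one_right (pow_nonneg (by positivity) _) h3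
    have h5 : aeval x P = ((P.map (algebraMap ℤ (AlgebraicClosure ℚ))).roots.map
        fun y => x - y).prod := by
      rw [← (IsAlgClosed.splits _).eval_eq_prod_roots_of_monic (hP.map _), eval_map, aeval_def]
    have h6 : ε ^ f.natDegree ≤ ‖emb p (aeval x P)‖ := by
      rw [h5]
      have h7 := pad_prod (p := p) hε (P.map (algebraMap ℤ (AlgebraicClosure ℚ))).roots x (by
        intro y hy
        exact hcon y (by rw [hZ, Multiset.mem_toFinset]; exact hy))
      rwa [← (IsAlgClosed.splits _).natDegree_eq_card_roots, hP.natDegree_map, hdeg] at h7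
    linarith
  choose! ϕ hϕ1 hϕ2 using hex
  have hdet : ∀ x ∈ Z f, ∀ x' ∈ Z f, ∀ y, ‖emb p x - emb p y‖ < ε → ‖emb p x' - emb p y‖ < ε →
      x = x' := by
    intro x hx x' hx' y h1 h2
    by_contra hne
    exact absurd (pad_tri h1 h2) (not_lt.2 (hsep x hx x' hx' hne))
  have hinj : Set.InjOn ϕ (Z f) := by
    intro x hx x' hx' h
    refine hdet x hx x' hx' (ϕ x) (hϕ2 x hx) ?_
    rw [h]
    exact hϕ2 x' hx'
  have himg : (Z f).image ϕ = Z P := by
    apply Finset.eq_of_subset_of_card_le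
    · intro y hy
      obtain ⟨x, hx, rfl⟩ := Finset.mem_image.1 hy
      exact hϕ1 x hx
    · rw [Finset.card_image_of_injOn hinj, hcardf, ← hdeg]
      exact hcardZ P hP
  have hsurj : ∀ y ∈ Z P, ∃ x ∈ Z f, ϕ x = y := by
    intro y hy
    rw [← himg] at hy
    exact Finset.mem_image.1 hy
  have huniq : ∀ x ∈ Z f, ∀ y ∈ Z P, ‖emb p x - emb p y‖ < ε → ϕ x = y := by
    intro x hx y hy h
    obtain ⟨x', hx', rfl⟩ := hsurj y hy
    rw [hdet x hx x' hx' _ h (hϕ2 x' hx')]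
  have hequiv : ∀ u ∈ decomp ℚ_[p] (emb p), ∀ x ∈ Z f, ϕ (u x) = u (ϕ x) := by
    rintro u ⟨σ, hσ⟩ x hx
    have hux : u x ∈ Z f := (hmemZ f hf _).2 (pad_zero u f ((hmemZ f hf x).1 hx))
    have huy : u (ϕ x) ∈ Z P := (hmemZ P hP _).2 (pad_zero u P ((hmemZ P hP _).1 (hϕ1 x hx)))
    refine huniq _ hux _ huy ?_
    rw [hσ, hσ, ← map_sub, pad_aut]
    exact hϕ2 x hx
  have main : ∀ U : Subgroup GQ, U ≤ decomp ℚ_[p] (emb p) → nrt f U = nrt P U := by
    intro U hU
    refine Nat.card_congr (Equiv.ofBijective (fun x => ⟨ϕ x.1,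
      (hmemZ P hP _).1 (hϕ1 _ ((hmemZ f hf _).2 x.2.1)), fun u hu => ?_⟩) ⟨?_, ?_⟩)
    · rw [← hequiv u (hU hu) _ ((hmemZ f hf _).2 x.2.1), x.2.2 u hu]
    · intro x x' h
      exact Subtype.ext (hinj ((hmemZ f hf _).2 x.2.1) ((hmemZ f hf _).2 x'.2.1)
        (congrArg Subtype.val h))
    · intro y
      obtain ⟨x, hx, hxy⟩ := hsurj y.1 ((hmemZ P hP _).2 y.2.1)
      refine ⟨⟨x, (hmemZ f hf _).1 hx, fun u hu => ?_⟩, Subtype.ext hxy⟩
      have hux : u x ∈ Z f := (hmemZ f hf _).2 (pad_zero u f ((hmemZ f hf x).1 hx))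
      apply hinj hux hx
      rw [hequiv u (hU hu) x hx, hxy]
      exact y.2.2 u hu
  intro U hU
  obtain ⟨a, ha⟩ := hU
  rw [pad_cj f U a, pad_cj P U a]
  exact main _ ha

end Pool.Agent.TS
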