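import Mathlib

/-!
# TS/F-Rts: many real roots

PLAN.  `x_j = (j - 1/2) t` for `j = 0, …, n`.  `∏ i ∈ range n, (x_j - i t) = t ^ n ∏ (j - 1/2 - i)`; every factor `j - 1/2 - i` has absolute value `≥ 1/2`, and the product has the sign `(-1) ^ (n - j)` (the factors with `i ≥ j` are negative).  `|r(x)| ≤ C (1 + |x|) ^ (n - 1)` with `C = ∑ |r.coeff i|` (degree `< n`), so
`|r(x_j)| ≤ C (1 + n t) ^ (n - 1) ≤ C (2 n t) ^ (n - 1)` for `t ≥ 1`, `n ≥ 1`.  For `t > C 2 ^ n (2 n) ^ (n - 1)` (and `t ≥ 1`) this is `< (t / 2) ^ n`, so `P(x_j)` has the sign `(-1) ^ (n - j)`.  Intermediate value theorem on `[x_j, x_(j+1)]`: a root in each open interval: `n` distinct real roots.  `P` (monic of degree `n`)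
has at most `n` complex roots, so all of them are these: for a complex root `z`: `P.map` to `ℂ` has `roots.toFinset` of cardinality `≤ n`, which contains the images of the `n` real roots, so equality.
-/

namespace Pool.Agent.TS

open Polynomial

private theorem Rts_sign (n j : ℕ) (hj : j ≤ n) :
    ∏ i ∈ Finset.range n, (if i < j then (1 : ℝ) else -1) = (-1) ^ (n - j) := by
  rw [← Finset.prod_range_mul_prod_Ico _ hj]
  rw [Finset.prod_eq_one (fun i hi => if_pos (Finset.mem_range.1 hi)), one_mul]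
  rw [Finset.prod_congr rfl (fun i hi => if_neg (not_lt.2 (Finset.mem_Ico.1 hi).1))]
  rw [Finset.prod_const, Nat.card_Ico]

private theorem Rts_prod (n j t : ℕ) (hj : j ≤ n) :
    ((t : ℝ) / 2) ^ n ≤ (-1) ^ (n - j) * ∏ i ∈ Finset.range n, (((j : ℝ) - 1 / 2) * t - i * t) := by
  rw [← Rts_sign n j hj, ← Finset.prod_mul_distrib, ← Finset.card_range n, ← Finset.prod_const,
    Finset.card_range]
  refine Finset.prod_le_prod (fun i _ => by positivity) fun i _ => ?_
  have ht : (0 : ℝ) ≤ t := Nat.cast_nonneg t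
  by_cases h : i < j
  · rw [if_pos h]
    have h1 : (i : ℝ) + 1 ≤ j := by exact_mod_cast h
    nlinarith
  · rw [if_neg h]
    have h1 : (j : ℝ) ≤ i := by exact_mod_cast not_lt.1 h
    nlinarith

private theorem Rts_bound (r : ℤ[X]) (n : ℕ) (hr : r.natDegree < n) (x M : ℝ) (hM : 1 ≤ M) (hx : |x| ≤ M) :
    |r.eval₂ (Int.castRingHom ℝ) x| ≤ (∑ i ∈ Finset.range n, ((r.coeff i).natAbs : ℝ)) * M ^ (n - 1) := by
  rw [Polynomial.eval₂_eq_sum_range' _ hr, Finset.sum_mul]
  refine (Finset.abs_sum_le_sum_abs _ _).trans (Finset.sum_le_sum fun i hi => ?_)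
  have hi' : i ≤ n - 1 := by
    have := Finset.mem_range.1 hi
    omega
  rw [abs_mul, abs_pow]
  have h1 : |(Int.castRingHom ℝ) (r.coeff i)| = ((r.coeff i).natAbs : ℝ) := by
    rw [Nat.cast_natAbs]
    simp
  rw [h1]
  refine mul_le_mul_of_nonneg_left ?_ (Nat.cast_nonneg _)
  calc |x| ^ i ≤ M ^ i := pow_le_pow_left₀ (abs_nonneg x) hx i
    _ ≤ M ^ (n - 1) := pow_le_pow_right₀ hM hi'

private theorem Rts_eval (r : ℤ[X]) (n t : ℕ) (x : ℝ) :
    (∏ i ∈ Finset.range n, (X - C ((i : ℤ) * (t : ℤ))) + r).eval₂ (Int.castRingHom ℝ) x =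
      ∏ i ∈ Finset.range n, (x - i * t) + r.eval₂ (Int.castRingHom ℝ) x := by
  rw [Polynomial.eval₂_add, Polynomial.eval₂_finsetProd]
  congr 1
  refine Finset.prod_congr rfl fun i _ => ?_
  rw [Polynomial.eval₂_sub, Polynomial.eval₂_X, Polynomial.eval₂_C]
  simp

theorem real_roots (r : ℤ[X]) (n : ℕ) (hn : 0 < n) (hr : r.degree < n) : ∃ t0 : ℕ, ∀ t : ℕ,
    t0 ≤ t → ∀ z : ℂ, ((∏ i ∈ Finset.range n, (X - C ((i : ℤ) * (t : ℤ))) + r).map
      (Int.castRingHom ℂ)).eval z = 0 → z.im = 0 := by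
  have hr' : r.natDegree < n := by
    rcases eq_or_ne r 0 with h | h
    · rw [h, natDegree_zero]
      exact hn
    · exact (natDegree_lt_iff_degree_lt h).2 hr
  refine ⟨(∑ i ∈ Finset.range n, (r.coeff i).natAbs) * n ^ (n - 1) * 2 ^ n + 1, fun t ht z hz => ?_⟩
  have ht1 : 1 ≤ t := le_trans (Nat.le_add_left _ _) ht
  have htR : (1 : ℝ) ≤ t := by exact_mod_cast ht1
  have hnR : (1 : ℝ) ≤ n := by exact_mod_cast hn
  set P : ℤ[X] := ∏ i ∈ Finset.range n, (X - C ((i : ℤ) * (t : ℤ))) + r with hP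
  -- the signs
  have hsg : ∀ j ≤ n, 0 < (-1) ^ (n - j) * P.eval₂ (Int.castRingHom ℝ) (((j : ℝ) - 1 / 2) * t) := by
    intro j hj
    have hjR : (j : ℝ) ≤ n := by exact_mod_cast hj
    rw [hP, Rts_eval, mul_add]
    have h1 := Rts_prod n j t hj
    have hx : |((j : ℝ) - 1 / 2) * t| ≤ n * t := by
      rw [abs_mul, Nat.abs_cast]
      refine mul_le_mul_of_nonneg_right ?_ (Nat.cast_nonneg t)
      rw [abs_le]
      have := Nat.cast_nonneg (α := ℝ) j
      constructor <;> linarith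
    have hM : (1 : ℝ) ≤ n * t := by nlinarith
    have h2 := Rts_bound r n hr' _ _ hM hx
    have h3 : (∑ i ∈ Finset.range n, ((r.coeff i).natAbs : ℝ)) * ((n : ℝ) * t) ^ (n - 1) < ((t : ℝ) / 2) ^ n := by
      have h4 : (∑ i ∈ Finset.range n, ((r.coeff i).natAbs : ℝ)) * n ^ (n - 1) * 2 ^ n < t := by
        have h5 : (∑ i ∈ Finset.range n, (r.coeff i).natAbs) * n ^ (n - 1) * 2 ^ n < t := ht
        exact_mod_cast h5
      have h6 : ((t : ℝ) / 2) ^ n = t * t ^ (n - 1) / 2 ^ n := by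
        rw [div_pow, ← pow_succ', Nat.sub_add_cancel hn]
      rw [h6, lt_div_iff₀ (by positivity), mul_pow]
      calc (∑ i ∈ Finset.range n, ((r.coeff i).natAbs : ℝ)) * ((n : ℝ) ^ (n - 1) * (t : ℝ) ^ (n - 1)) * 2 ^ n
          = ((∑ i ∈ Finset.range n, ((r.coeff i).natAbs : ℝ)) * n ^ (n - 1) * 2 ^ n) * (t : ℝ) ^ (n - 1) := by ring
        _ < t * (t : ℝ) ^ (n - 1) := mul_lt_mul_of_pos_right h4 (by positivity)
    have h7 : -|r.eval₂ (Int.castRingHom ℝ) (((j : ℝ) - 1 / 2) * t)| ≤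
        (-1) ^ (n - j) * r.eval₂ (Int.castRingHom ℝ) (((j : ℝ) - 1 / 2) * t) := by
      rcases neg_one_pow_eq_or ℝ (n - j) with h8 | h8
      · rw [h8, one_mul]
        exact neg_abs_le _
      · rw [h8, neg_one_mul]
        exact neg_le_neg (le_abs_self _)
    linarith
  -- the roots
  have hroot : ∀ j : Fin n, ∃ y : ℝ, ((j : ℕ) - 1 / 2 : ℝ) * t < y ∧ y < ((j : ℕ) + 1 / 2 : ℝ) * t ∧
      P.eval₂ (Int.castRingHom ℝ) y = 0 := by
    intro j
    have h1 := hsg j j.2.le
    have h2 := hsg (j + 1) j.2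
    have h3 : ((-1 : ℝ)) ^ (n - (j : ℕ)) = -(-1) ^ (n - ((j : ℕ) + 1)) := by
      have h4 : n - (j : ℕ) = (n - ((j : ℕ) + 1)) + 1 := by
        have := j.2
        omega
      rw [h4, pow_succ]
      ring
    have hx : ((((j : ℕ) + 1 : ℕ) : ℝ) - 1 / 2) * t = ((j : ℕ) + 1 / 2 : ℝ) * t := by
      push_cast
      ring
    rw [hx] at h2
    have hc : ContinuousOn (fun x : ℝ => (-1) ^ (n - (j : ℕ)) * P.eval₂ (Int.castRingHom ℝ) x)
        (Set.Icc (((j : ℕ) - 1 / 2 : ℝ) * t) (((j : ℕ) + 1 / 2 : ℝ) * t)) := by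
      have h5 : (fun x : ℝ => (-1) ^ (n - (j : ℕ)) * P.eval₂ (Int.castRingHom ℝ) x) =
          fun x : ℝ => (-1) ^ (n - (j : ℕ)) * (P.map (Int.castRingHom ℝ)).eval x := by
        funext x
        rw [Polynomial.eval_map]
      rw [h5]
      exact (continuous_const.mul (Polynomial.continuous _)).continuousOn
    have hle : ((j : ℕ) - 1 / 2 : ℝ) * t ≤ ((j : ℕ) + 1 / 2 : ℝ) * t := by nlinarith
    have h6 := intermediate_value_Ioo' hle hc
    have h7 : (0 : ℝ) ∈ Set.Ioo ((-1) ^ (n - (j : ℕ)) * P.eval₂ (Int.castRingHom ℝ) (((j : ℕ) + 1 / 2 : ℝ) * t))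
        ((-1) ^ (n - (j : ℕ)) * P.eval₂ (Int.castRingHom ℝ) (((j : ℕ) - 1 / 2 : ℝ) * t)) := by
      refine ⟨?_, h1⟩
      rw [h3, neg_mul]
      exact neg_lt_zero.2 h2
    obtain ⟨y, hy, hy0⟩ := h6 h7
    refine ⟨y, hy.1, hy.2, ?_⟩
    rcases mul_eq_zero.1 hy0 with h8 | h8
    · exact absurd h8 (pow_ne_zero _ (by norm_num))
    · exact h8
  choose y hy1 hy2 hy3 using hroot
  have hinj : Function.Injective fun j : Fin n => ((y j : ℝ) : ℂ) := by
    intro i j hij
    have hij' : y i = y j := Complex.ofReal_injective hij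
    have key : ∀ i j : Fin n, y i = y j → ¬ i < j := by
      intro i j he hlt
      have h1 : ((i : ℕ) : ℝ) + 1 ≤ (j : ℕ) := by exact_mod_cast hlt
      have h2 := hy2 i
      have h3 := hy1 j
      rw [he] at h2
      nlinarith
    rcases lt_trichotomy i j with h | h | h
    · exact absurd h (key i j hij')
    · exact h
    · exact absurd h (key j i hij'.symm)
  -- the polynomial over the complex numbers
  have hprod : (∏ i ∈ Finset.range n, (X - C ((i : ℤ) * (t : ℤ)))).Monic :=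
    Polynomial.monic_prod_of_monic _ _ fun i _ => Polynomial.monic_X_sub_C _
  have hdeg : (∏ i ∈ Finset.range n, (X - C ((i : ℤ) * (t : ℤ)))).natDegree = n := by
    rw [Polynomial.natDegree_prod_of_monic _ _ fun i _ => Polynomial.monic_X_sub_C _]
    rw [Finset.sum_congr rfl fun i _ => Polynomial.natDegree_X_sub_C _, Finset.sum_const, Finset.card_range,
      smul_eq_mul, mul_one]
  have hdeg' : (∏ i ∈ Finset.range n, (X - C ((i : ℤ) * (t : ℤ)))).degree = (n : WithBot ℕ) := by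
    rw [Polynomial.degree_eq_natDegree hprod.ne_zero, hdeg]
  have hPm : P.Monic := hprod.add_of_left (by rw [hdeg']; exact hr)
  have hPd : P.natDegree ≤ n := by
    refine (Polynomial.natDegree_add_le _ _).trans (max_le hdeg.le hr'.le)
  have hQ0 : P.map (Int.castRingHom ℂ) ≠ 0 := (hPm.map _).ne_zero
  have hsub : Finset.univ.image (fun j : Fin n => ((y j : ℝ) : ℂ)) ⊆ (P.map (Int.castRingHom ℂ)).roots.toFinset := by
    intro w hw
    obtain ⟨j, _, rfl⟩ := Finset.mem_image.1 hw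
    rw [Multiset.mem_toFinset, Polynomial.mem_roots hQ0, Polynomial.IsRoot.def, Polynomial.eval_map]
    have h1 : Int.castRingHom ℂ = Complex.ofRealHom.comp (Int.castRingHom ℝ) := RingHom.ext_int _ _
    have h2 := Polynomial.hom_eval₂ P (Int.castRingHom ℝ) Complex.ofRealHom (y j)
    rw [hy3 j, map_zero, ← h1] at h2
    exact h2.symm
  have hcard : (P.map (Int.castRingHom ℂ)).roots.toFinset.card ≤
      (Finset.univ.image (fun j : Fin n => ((y j : ℝ) : ℂ))).card := by
    rw [Finset.card_image_of_injective _ hinj, Finset.card_univ, Fintype.card_fin]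
    exact ((Multiset.toFinset_card_le _).trans (Polynomial.card_roots' _)).trans
      (Polynomial.natDegree_map_le.trans hPd)
  have heq := Finset.eq_of_subset_of_card_le hsub hcard
  have hz' : z ∈ (P.map (Int.castRingHom ℂ)).roots.toFinset := by
    rw [Multiset.mem_toFinset, Polynomial.mem_roots hQ0]
    exact hz
  rw [← heq] at hz'
  obtain ⟨j, _, hj⟩ := Finset.mem_image.1 hz'
  rw [← hj]
  exact Complex.ofReal_im _

end Pool.Agent.TS
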