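import Pool.Agent.TS.F.Crt
import Pool.Agent.TS.F.Rts

/-!
# TS/F-Poly: a totally real irreducible polynomial congruent to a given one (paper section 5)

`n = f.natDegree ≥ 1`, `q` a prime not dividing `N0` (`Nat.exists_infinite_primes`: `q > N0`), `r` from `exists_r`, `t0` from `real_roots`, `t = q ^ 2 * N0 * (t0 + 1) ≥ t0`, `P = ∏ i ∈ range n, (X - C (i * t)) + r`: monic of degree `n` (`monic_prod_of_monic`, `Monic.add_of_left`).  Coefficients: modulo `t` (a multiple of `N0` and `q ^ 2`)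
the product is `X ^ n`, so `P.coeff i ≡ (X ^ n + r).coeff i`: for `i < n` `≡ r.coeff i`; `i ≥ n`: `P.coeff i = f.coeff i` (both monic of degree `n`).  `irr_eis`, `real_roots`.
-/

namespace Pool.Agent.TS

open Polynomial

private theorem tsPoly_prod (t : ℤ) (n : ℕ) : ∃ S : ℤ[X],
    ∏ i ∈ Finset.range n, (X - C ((i : ℤ) * t)) = X ^ n + C t * S := by
  induction n with
  | zero => exact ⟨0, by simp⟩
  | succ n ih =>
    obtain ⟨S, hS⟩ := ih
    refine ⟨S * (X - C ((n : ℤ) * t)) - C (n : ℤ) * X ^ n, ?_⟩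
    rw [Finset.prod_range_succ, hS]
    simp only [C_mul]
    ring

theorem exists_poly (f : ℤ[X]) (hf : f.Monic) (hd : 0 < f.natDegree) (N0 : ℕ) (hN0 : N0 ≠ 0) :
    ∃ P : ℤ[X], P.Monic ∧ P.natDegree = f.natDegree ∧
      Irreducible (P.map (Int.castRingHom ℚ)) ∧
      (∀ z : ℂ, (P.map (Int.castRingHom ℂ)).eval z = 0 → z.im = 0) ∧
      ∀ i, (N0 : ℤ) ∣ P.coeff i - f.coeff i := by
  obtain ⟨q, hqN, hq⟩ := Nat.exists_infinite_primes (N0 + 1)
  have hqd : ¬ q ∣ N0 := fun h => by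
    have := Nat.le_of_dvd (Nat.pos_of_ne_zero hN0) h
    omega
  obtain ⟨r, hr, hr1, hr2⟩ := exists_r f f.natDegree N0 q hq hqd hN0
  obtain ⟨t0, ht0⟩ := real_roots r f.natDegree hd hr
  set n := f.natDegree with hn
  set t : ℕ := q ^ 2 * N0 * (t0 + 1) with ht
  have htle : t0 ≤ t := by
    have h1 : 0 < q ^ 2 * N0 := Nat.mul_pos (pow_pos hq.pos 2) (Nat.pos_of_ne_zero hN0)
    have h2 : t0 + 1 ≤ t := by
      rw [ht]
      exact Nat.le_mul_of_pos_left _ h1
    omega
  obtain ⟨S, hS⟩ := tsPoly_prod (t : ℤ) n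
  set Q : ℤ[X] := ∏ i ∈ Finset.range n, (X - C ((i : ℤ) * (t : ℤ))) with hQ
  have hQm : Q.Monic := monic_prod_of_monic _ _ fun i _ => monic_X_sub_C _
  have hQd : Q.natDegree = n := by
    rw [hQ, natDegree_prod_of_monic _ _ fun i _ => monic_X_sub_C _]
    rw [Finset.sum_congr rfl (fun (i : ℕ) _ => natDegree_X_sub_C ((i : ℤ) * (t : ℤ)))]
    simp
  have hQdeg : Q.degree = n := by
    rw [degree_eq_natDegree hQm.ne_zero, hQd]
  have hrQ : r.degree < Q.degree := by rw [hQdeg]; exact hr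
  have hPm : (Q + r).Monic := hQm.add_of_left hrQ
  have hPd : (Q + r).natDegree = n := by
    rw [natDegree_eq_of_degree_eq (degree_add_eq_left_of_degree_lt hrQ), hQd]
  have hcoef : ∀ i < n, (Q + r).coeff i = (t : ℤ) * S.coeff i + r.coeff i := by
    intro i hi
    rw [hS, coeff_add, coeff_add, coeff_X_pow, coeff_C_mul, if_neg (by omega), zero_add]
  have hqt : ((q : ℤ) ^ 2) ∣ (t : ℤ) := by
    rw [ht]
    push_cast
    exact ⟨(N0 : ℤ) * ((t0 : ℤ) + 1), by ring⟩
  have hNt : (N0 : ℤ) ∣ (t : ℤ) := by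
    rw [ht]
    push_cast
    exact ⟨(q : ℤ) ^ 2 * ((t0 : ℤ) + 1), by ring⟩
  refine ⟨Q + r, hPm, hPd, ?_, ?_, ?_⟩
  · refine irr_eis (Q + r) hPm (by rw [hPd]; exact hd) q hq ?_
    intro i hi
    rw [hPd] at hi
    rw [hcoef i hi, add_sub_assoc]
    exact dvd_add (hqt.mul_right _) (hr2 i hi)
  · exact ht0 t htle
  · intro i
    rcases lt_trichotomy i n with hi | hi | hi
    · rw [hcoef i hi, add_sub_assoc]
      exact dvd_add (hNt.mul_right _) (hr1 i hi)
    · have h1 : (Q + r).coeff i = 1 := by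
        have := hPm.coeff_natDegree
        rwa [hPd, ← hi] at this
      have h2 : f.coeff i = 1 := by
        have := hf.coeff_natDegree
        rwa [← hn, ← hi] at this
      rw [h1, h2, sub_self]
      exact dvd_zero _
    · rw [coeff_eq_zero_of_natDegree_lt (by rw [hPd]; exact hi),
        coeff_eq_zero_of_natDegree_lt (by rw [← hn]; exact hi), sub_self]
      exact dvd_zero _

end Pool.Agent.TS
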